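import Pool.Agent.W762.RK2.EXP4a

/-!
# Project RK, second edition: expansion into symbols with the signs averaged (`EXP4`), second part
-/

set_option autoImplicit false

namespace Pool.Agent.W762.RK2

open Finset Pool.Agent.W262.RK Pool.Agent.W108.RK

section symbols

variable {z y : ℕ}

/-- the link of two labels -/
def lk {ι : Type} (L : ι → ι → Bool) (a b : Option ι) : Bool :=
  a.elim false fun i => b.elim false fun i' => L i i'

lemma prod_lk {ι : Type} [Fintype ι] [DecidableEq ι] (L : ι → ι → Bool) (a b : Option ι) (x : ℝ) :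
    (∏ i, ∏ i', if L i i' = true then (if b = some i' ∧ a = some i then x else 1) else 1) =
      if lk L a b = true then x else 1 := by
  cases ha : a with
  | none => simp [lk]
  | some i0 =>
    cases hb : b with
    | none => simp [lk]
    | some i1 =>
      rw [Finset.prod_eq_single i0, Finset.prod_eq_single i1]
      · by_cases hL : L i0 i1 = true <;> simp [lk, hL]
      · intro i' _ hi'
        have : ¬ i1 = i' := fun h => hi' h.symm
        simp [this]
      · intro h
        exact absurd (Finset.mem_univ _) h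
      · intro i _ hi
        have : ¬ i0 = i := fun h => hi h.symm
        simp [this]
      · intro h
        exact absurd (Finset.mem_univ _) h

lemma Sym_Dl {ι : Type} [Fintype ι] [DecidableEq ι] (L : ι → ι → Bool) (k : ι → ℤ)
    (l : Pr z y → Option ι) :
    Pool.Agent.W262.RK.Sym L k (Dl l) =
      (∏ p : Pr z y, ∏ q : Pr z y, if lk L (l q) (l p) = true then Jr (q : ℕ) p else 1) *
        ∏ p : Pr z y, (l p).elim 1 fun i => Jr (k i) p := by
  unfold Pool.Agent.W262.RK.Sym
  congr 1
  · have h1 : ∀ i i' : ι, (if L i i' = true then Jr (Dl l i) (Dl l i') else 1) =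
        ∏ p : Pr z y, ∏ q : Pr z y,
          if L i i' = true then (if l p = some i' ∧ l q = some i then Jr (q : ℕ) p else 1)
            else 1 := by
      intro i i'
      by_cases hL : L i i' = true
      · simp only [if_pos hL]
        unfold Dl
        rw [Jr_nb_right]
        refine Finset.prod_congr rfl fun p _ => ?_
        rw [Jr_nb_left]
        by_cases hp : l p = some i'
        · simp [hp]
        · simp [hp]
      · simp only [if_neg hL, Finset.prod_const_one]
    rw [Finset.prod_congr rfl fun i _ => Finset.prod_congr rfl fun i' _ => h1 i i']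
    rw [Finset.prod_congr rfl fun i _ => Finset.prod_comm, Finset.prod_comm]
    refine Finset.prod_congr rfl fun p _ => ?_
    rw [Finset.prod_congr rfl fun i _ => Finset.prod_comm, Finset.prod_comm]
    refine Finset.prod_congr rfl fun q _ => ?_
    exact prod_lk L (l q) (l p) _
  · have h1 : ∀ i, Jr (k i) (Dl l i) = ∏ p : Pr z y, if l p = some i then Jr (k i) p else 1 := by
      intro i
      unfold Dl
      rw [Jr_nb_right]
      simp only [decide_eq_true_eq]
    rw [Finset.prod_congr rfl fun i _ => h1 i, Finset.prod_comm]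
    refine Finset.prod_congr rfl fun p _ => ?_
    cases h : l p with
    | none => simp
    | some j => simp

end symbols

lemma Dl_inj {ι : Type} [DecidableEq ι] {z y : ℕ} {l l' : Pr z y → Option ι}
    (h : Dl l = Dl l') : l = l' := by
  funext p
  refine Option.ext fun i => ?_
  have h1 := congrFun (nb_inj (congrFun h i)) p
  exact decide_eq_decide.1 h1

section big

variable {J : Type} [Fintype J] [DecidableEq J] {z y : ℕ}

/-- first bit -/
def b1 (x : Option (J × (Bool × Bool))) : Bool := x.elim false fun a => a.2.1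

/-- second bit -/
def b2 (x : Option (J × (Bool × Bool))) : Bool := x.elim false fun a => a.2.2

/-- first divisor -/
def D1 (ξ : Pr z y → Option (J × (Bool × Bool))) : ℕ := nb fun p => b1 (ξ p)

/-- second divisor -/
def D2 (ξ : Pr z y → Option (J × (Bool × Bool))) : ℕ := nb fun p => b2 (ξ p)

/-- the tuple -/
def SS (ξ : Pr z y → Option (J × (Bool × Bool))) : J → ℕ := Dl fun p => (ξ p).map Prod.fst

lemma D1_dvd (ξ : Pr z y → Option (J × (Bool × Bool))) : D1 ξ ∣ ∏ j, SS ξ j := by
  unfold SS D1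
  rw [prod_Dl]
  refine nb_dvd fun p hp => ?_
  cases h : ξ p with
  | none => rw [h] at hp; exact absurd hp (by simp [b1])
  | some a => rfl

lemma D2_dvd (ξ : Pr z y → Option (J × (Bool × Bool))) : D2 ξ ∣ ∏ j, SS ξ j := by
  unfold SS D2
  rw [prod_Dl]
  refine nb_dvd fun p hp => ?_
  cases h : ξ p with
  | none => rw [h] at hp; exact absurd hp (by simp [b2])
  | some a => rfl

lemma prod_SS_ne (ξ : Pr z y → Option (J × (Bool × Bool))) : ∏ j, SS ξ j ≠ 0 := by
  unfold SS
  rw [prod_Dl]
  exact nb_ne_zero _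

lemma sum_big (F : (J → ℕ) → ℕ × ℕ → ℝ) :
    ∑ s ∈ Tup J z y, ∑ d ∈ (∏ j, s j).divisors ×ˢ (∏ j, s j).divisors, F s d =
      ∑ ξ : Pr z y → Option (J × (Bool × Bool)), F (SS ξ) (D1 ξ, D2 ξ) := by
  rw [Finset.sum_sigma']
  symm
  refine Finset.sum_bij (fun ξ _ => ⟨SS ξ, (D1 ξ, D2 ξ)⟩) ?_ ?_ ?_ (fun _ _ => rfl)
  · intro ξ _
    rw [Finset.mem_sigma, Finset.mem_product]
    exact ⟨Dl_mem _, Nat.mem_divisors.2 ⟨D1_dvd ξ, prod_SS_ne ξ⟩,
      Nat.mem_divisors.2 ⟨D2_dvd ξ, prod_SS_ne ξ⟩⟩
  · intro ξ _ ξ' _ h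
    have h1 : SS ξ = SS ξ' := congrArg Sigma.fst h
    have h2 : (D1 ξ, D2 ξ) = (D1 ξ', D2 ξ') := congrArg Sigma.snd h
    have h3 : D1 ξ = D1 ξ' := congrArg Prod.fst h2
    have h4 : D2 ξ = D2 ξ' := congrArg Prod.snd h2
    funext p
    have e1 : (ξ p).map Prod.fst = (ξ' p).map Prod.fst := congrFun (Dl_inj h1) p
    have e2 : b1 (ξ p) = b1 (ξ' p) := congrFun (nb_inj h3) p
    have e3 : b2 (ξ p) = b2 (ξ' p) := congrFun (nb_inj h4) p
    cases hx : ξ p with
    | none =>
      cases hx' : ξ' p with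
      | none => rfl
      | some a' => rw [hx, hx'] at e1; exact absurd e1 (by simp)
    | some a =>
      cases hx' : ξ' p with
      | none => rw [hx, hx'] at e1; exact absurd e1 (by simp)
      | some a' =>
        rw [hx, hx'] at e1 e2 e3
        obtain ⟨j, v, w⟩ := a
        obtain ⟨j', v', w'⟩ := a'
        have e4 : j = j' := by simpa using e1
        have e5 : v = v' := e2
        have e6 : w = w' := e3
        rw [e4, e5, e6]
  · rintro ⟨s, d1, d2⟩ hs
    rw [Finset.mem_sigma, Finset.mem_product] at hs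
    obtain ⟨hs, hd1, hd2⟩ := hs
    have hd1' := (Nat.mem_divisors.1 hd1).1
    have hd2' := (Nat.mem_divisors.1 hd2).1
    simp only at hs hd1' hd2'
    have hPP : ∏ j, s j ∣ PP z y := by
      rw [← Dl_lab hs, prod_Dl]
      exact nb_dvd_PP _
    have hn : ∀ p : Pr z y, lab s p = none → ¬ (p : ℕ) ∣ ∏ j, s j := by
      intro p hp h
      rw [← Dl_lab hs, prod_Dl, dvd_nb, hp] at h
      exact absurd h (by simp)
    refine ⟨fun p => (lab s p).map fun j => (j, (decide ((p : ℕ) ∣ d1), decide ((p : ℕ) ∣ d2))),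
      Finset.mem_univ _, ?_⟩
    have e1 : SS (fun p : Pr z y => (lab s p).map fun j =>
        (j, (decide ((p : ℕ) ∣ d1), decide ((p : ℕ) ∣ d2)))) = s := by
      unfold SS
      conv_rhs => rw [← Dl_lab hs]
      congr 1
      funext p
      show ((lab s p).map fun j =>
        (j, (decide ((p : ℕ) ∣ d1), decide ((p : ℕ) ∣ d2)))).map Prod.fst = _
      cases lab s p <;> rfl
    have e2 : D1 (fun p : Pr z y => (lab s p).map fun j =>
        (j, (decide ((p : ℕ) ∣ d1), decide ((p : ℕ) ∣ d2)))) = d1 := by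
      unfold D1
      conv_rhs => rw [← nb_eq (hd1'.trans hPP)]
      congr 1
      funext p
      show b1 ((lab s p).map fun j => (j, (decide ((p : ℕ) ∣ d1), decide ((p : ℕ) ∣ d2)))) = _
      cases hp : lab s p with
      | none =>
        have : ¬ (p : ℕ) ∣ d1 := fun h => hn p hp (h.trans hd1')
        simp [b1, this]
      | some j => rfl
    have e3 : D2 (fun p : Pr z y => (lab s p).map fun j =>
        (j, (decide ((p : ℕ) ∣ d1), decide ((p : ℕ) ∣ d2)))) = d2 := by
      unfold D2
      conv_rhs => rw [← nb_eq (hd2'.trans hPP)]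
      congr 1
      funext p
      show b2 ((lab s p).map fun j => (j, (decide ((p : ℕ) ∣ d1), decide ((p : ℕ) ∣ d2)))) = _
      cases hp : lab s p with
      | none =>
        have : ¬ (p : ℕ) ∣ d2 := fun h => hn p hp (h.trans hd2')
        simp [b2, this]
      | some j => rfl
    rw [e1, e2, e3]

end big

section average

lemma prod_ind (s : Finset ℕ) (P : ℕ → Prop) :
    ∏ p ∈ s, ind (P p) = ind (∀ p ∈ s, P p) := by
  by_cases h : ∀ p ∈ s, P p
  · rw [ind, if_pos h]
    exact Finset.prod_eq_one fun p hp => by rw [ind, if_pos (h p hp)]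
  · rw [ind, if_neg h]
    push Not at h
    obtain ⟨p, hp, hP⟩ := h
    exact Finset.prod_eq_zero hp (by rw [ind, if_neg hP])

/-- averaging over a set of signs -/
lemma avg (A P : Finset ℕ) (hA : A ⊆ P) (I : Bool → ℕ → ℝ)
    (hI : ∀ p ∈ P, p ∉ A → I true p = I false p) :
    (1 / 2 : ℝ) ^ A.card * ∑ E ∈ A.powerset, ∏ p ∈ P, I (decide (p ∈ E)) p =
      ∏ p ∈ P, (I true p + I false p) / 2 := by
  classical
  have h1 : ∏ p ∈ P, (I true p + I false p) / 2 =
      (∏ p ∈ P \ A, I false p) * ∏ p ∈ A, (I true p + I false p) / 2 := by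
    rw [← Finset.prod_sdiff hA]
    congr 1
    refine Finset.prod_congr rfl fun p hp => ?_
    rw [Finset.mem_sdiff] at hp
    rw [hI p hp.1 hp.2]
    ring
  have h2 : ∏ p ∈ A, (I true p + I false p) / 2 =
      (1 / 2 : ℝ) ^ A.card * ∑ E ∈ A.powerset, (∏ p ∈ E, I true p) * ∏ p ∈ A \ E, I false p := by
    rw [← Finset.prod_add, ← Finset.prod_const, ← Finset.prod_mul_distrib]
    refine Finset.prod_congr rfl fun p _ => ?_
    ring
  rw [h1, h2, mul_left_comm]
  congr 1
  rw [Finset.mul_sum]
  refine Finset.sum_congr rfl fun E hE => ?_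
  have hE' := Finset.mem_powerset.1 hE
  rw [← Finset.prod_sdiff hA, ← Finset.prod_sdiff hE', mul_comm (∏ p ∈ E, I true p)]
  congr 1
  · refine Finset.prod_congr rfl fun p hp => ?_
    rw [Finset.mem_sdiff] at hp
    have : p ∉ E := fun h => hp.2 (hE' h)
    simp [this]
  · congr 1
    · refine Finset.prod_congr rfl fun p hp => ?_
      rw [Finset.mem_sdiff] at hp
      simp [hp.2]
    · refine Finset.prod_congr rfl fun p hp => ?_
      simp [hp]

lemma LL_neg {c : Fin 4} (hc : c ≠ 3) (k : Fin 3 → ℤ) (p : ℕ) (v w h g : Bool) :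
    LL c k true p v w h g = LL c k false p v w h g := by
  unfold LL
  split_ifs with h0 h1 h2
  · rfl
  · rfl
  · rfl
  · exfalso
    fin_cases c
    · exact h0 rfl
    · exact h1 rfl
    · exact h2 rfl
    · exact hc rfl

variable {J : Type} [Fintype J] [DecidableEq J] {z y : ℕ}

/-- the local indicator -/
noncomputable def Il (cls : J → Fin 4) (k : J → Fin 3 → ℤ) (s : J → ℕ) (d : ℕ × ℕ) (neg : Bool)
    (p : ℕ) : ℝ :=
  ind (∀ j, p ∣ s j → LL (cls j) (k j) neg p (dv p d.1) (dv p d.2) (sgn p d.1) (sgn p d.2))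

lemma NB_eq (cls : J → Fin 4) (k : J → Fin 3 → ℤ) {s : J → ℕ} (hs : s ∈ Tup J z y) :
    NB cls k s = ∑ d ∈ (∏ j, s j).divisors ×ˢ (∏ j, s j).divisors,
      ∏ p ∈ (∏ j, s j).primeFactors, (Il cls k s d true p + Il cls k s d false p) / 2 := by
  classical
  have hne : ∏ j, s j ≠ 0 := Finset.prod_ne_zero_iff.2 fun j _ => (sqf_of_mem hs j).ne_zero
  have h1 : ∀ E : Finset ℕ, (NL (∏ j, s j) (LLs cls k s E) : ℝ) =
      ∑ d ∈ (∏ j, s j).divisors ×ˢ (∏ j, s j).divisors,
        ∏ p ∈ (∏ j, s j).primeFactors, Il cls k s d (decide (p ∈ E)) p := by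
    intro E
    unfold NL
    rw [Finset.card_filter]
    push_cast
    refine Finset.sum_congr rfl fun d _ => ?_
    unfold Il
    rw [prod_ind]
    unfold ind LLs
    congr
  unfold NB
  rw [Finset.sum_congr rfl fun E _ => h1 E, Finset.sum_comm, Finset.mul_sum]
  refine Finset.sum_congr rfl fun d _ => ?_
  refine avg (P3 cls s) (∏ j, s j).primeFactors ?_ (Il cls k s d) ?_
  · unfold P3
    refine Nat.primeFactors_mono ?_ hne
    exact Finset.prod_dvd_prod_of_subset _ _ _ (Finset.filter_subset _ _)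
  · intro p hp hpA
    unfold Il
    congr 1
    refine propext (forall_congr' fun j => ?_)
    refine forall_congr' fun hj => ?_
    rw [LL_neg]
    intro hc
    apply hpA
    unfold P3
    refine Nat.mem_primeFactors.2 ⟨Nat.prime_of_mem_primeFactors hp, ?_, ?_⟩
    · exact hj.trans (Finset.dvd_prod_of_mem _ (Finset.mem_filter.2 ⟨Finset.mem_univ _, hc⟩))
    · exact Finset.prod_ne_zero_iff.2 fun j _ => (sqf_of_mem hs j).ne_zero

end average

section final

variable {J : Type} [Fintype J] [DecidableEq J] {z y : ℕ}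

/-- the local term -/
noncomputable def Tm (cls : J → Fin 4) (k : J → Fin 3 → ℤ) (c : ℕ)
    (ξ : Pr z y → Option (J × (Bool × Bool))) (p : Pr z y) : ℝ :=
  (ξ p).elim 1 fun a => 1 / ((p : ℝ) - c) * ((ind (LL (cls a.1) (k a.1) true p a.2.1 a.2.2
    (sgn p (D1 ξ)) (sgn p (D2 ξ))) + ind (LL (cls a.1) (k a.1) false p a.2.1 a.2.2
    (sgn p (D1 ξ)) (sgn p (D2 ξ)))) / 2)

lemma lhs_eq (cls : J → Fin 4) (k : J → Fin 3 → ℤ) (c : ℕ) :
    ∑ s ∈ Tup J z y, NB cls k s * ∏ j, gw 1 c (s j) =
      ∑ ξ : Pr z y → Option (J × (Bool × Bool)), ∏ p, Tm cls k c ξ p := by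
  have h1 : ∀ s ∈ Tup J z y, NB cls k s * ∏ j, gw 1 c (s j) =
      ∑ d ∈ (∏ j, s j).divisors ×ˢ (∏ j, s j).divisors,
        (∏ p ∈ (∏ j, s j).primeFactors, (Il cls k s d true p + Il cls k s d false p) / 2) *
          ∏ j, gw 1 c (s j) := by
    intro s hs
    rw [NB_eq cls k hs, Finset.sum_mul]
  rw [Finset.sum_congr rfl h1, sum_big fun s d =>
    (∏ p ∈ (∏ j, s j).primeFactors, (Il cls k s d true p + Il cls k s d false p) / 2) *
          ∏ j, gw 1 c (s j)]
  refine Finset.sum_congr rfl fun ξ _ => ?_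
  have h2 : ∏ j, gw 1 c (SS ξ j) = ∏ p : Pr z y, ((ξ p).map Prod.fst).elim 1
      fun _ => 1 / ((p : ℝ) - c) := prod_gw (fun _ => 1) c _
  have h3 : ∏ j, SS ξ j = nb fun p => ((ξ p).map Prod.fst).isSome := prod_Dl _
  rw [h2, h3, prod_pf _ fun p => (Il cls k (SS ξ) (D1 ξ, D2 ξ) true p +
    Il cls k (SS ξ) (D1 ξ, D2 ξ) false p) / 2, ← Finset.prod_mul_distrib]
  refine Finset.prod_congr rfl fun p _ => ?_
  unfold Tm
  cases hx : ξ p with
  | none => simp
  | some a =>
    have h4 : ∀ neg, Il cls k (SS ξ) (D1 ξ, D2 ξ) neg p =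
        ind (LL (cls a.1) (k a.1) neg p a.2.1 a.2.2 (sgn p (D1 ξ)) (sgn p (D2 ξ))) := by
      intro neg
      unfold Il
      have e1 : dv p (D1 ξ : ℤ) = a.2.1 := by
        have : b1 (ξ p) = a.2.1 := by rw [hx]; rfl
        rw [← this]
        unfold dv
        rw [Bool.eq_iff_iff, decide_eq_true_iff, Int.natCast_dvd_natCast]
        exact dvd_nb _ p
      have e2 : dv p (D2 ξ : ℤ) = a.2.2 := by
        have : b2 (ξ p) = a.2.2 := by rw [hx]; rfl
        rw [← this]
        unfold dv
        rw [Bool.eq_iff_iff, decide_eq_true_iff, Int.natCast_dvd_natCast]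
        exact dvd_nb _ p
      have e3 : ∀ j, (p : ℕ) ∣ SS ξ j ↔ j = a.1 := by
        intro j
        unfold SS Dl
        rw [dvd_nb, decide_eq_true_iff]
        show (ξ p).map Prod.fst = some j ↔ j = a.1
        rw [hx]
        simp [eq_comm]
      congr 1
      simp only [e1, e2, e3, forall_eq]
    simp only [h4]
    simp only [Option.map_some, Option.isSome_some, if_true, Option.elim]
    ring

lemma sum_I4 (cls : J → Fin 4) (F : J × (Bool × Bool) × (Bool × Bool) → ℝ) :
    ∑ i : I4 cls, F i.1 = ∑ r, if Al (cls r.1) r.2.1 r.2.2 = true then F r else 0 := by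
  rw [← Finset.sum_filter]
  exact (Finset.sum_subtype (univ.filter fun r : J × (Bool × Bool) × (Bool × Bool) =>
    Al (cls r.1) r.2.1 r.2.2 = true) (fun x => by simp) F).symm

/-- forget the character -/
def fg {cls : J → Fin 4} (x : Option (I4 cls)) : Option (J × (Bool × Bool)) :=
  x.map fun i => (i.1.1, i.1.2.1)

/-- the local factor -/
noncomputable def G (cls : J → Fin 4) (k : J → Fin 3 → ℤ) (c : ℕ)
    (ξ : Pr z y → Option (J × (Bool × Bool))) (p : Pr z y) (x : Option (I4 cls)) : ℝ :=
  x.elim 1 fun i => 1 / ((p : ℝ) - c) * (w4 cls i * Jr (κ4 cls k i) p *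
    ((if i.1.2.2.1 = true then sg (sgn p (D1 ξ)) else 1) *
      (if i.1.2.2.2 = true then sg (sgn p (D2 ξ)) else 1)))

lemma sum_G (cls : J → Fin 4) (k : J → Fin 3 → ℤ) (c : ℕ)
    (ξ : Pr z y → Option (J × (Bool × Bool))) (p : Pr z y) (hk : ∀ j i, ¬ ((p : ℕ) : ℤ) ∣ k j i) :
    ∑ x ∈ univ.filter (fun x : Option (I4 cls) => fg x = ξ p), G cls k c ξ p x =
      Tm cls k c ξ p := by
  rw [Finset.sum_filter, Fintype.sum_option]
  unfold Tm
  cases hx : ξ p with
  | none => simp [fg, G]
  | some a =>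
    obtain ⟨j, v⟩ := a
    have h0 : (if fg (none : Option (I4 cls)) = some (j, v) then G cls k c ξ p none else 0) = 0 := by
      rw [if_neg]
      simp [fg]
    rw [h0, zero_add]
    set F : J × (Bool × Bool) × (Bool × Bool) → ℝ := fun r : J × (Bool × Bool) × (Bool × Bool) =>
          if r.1 = j ∧ r.2.1 = v then 1 / ((p : ℝ) - c) * (wc (cls r.1) *
            Jr (kc (cls r.1) (k r.1) r.2.1 r.2.2) p *
            ((if r.2.2.1 = true then sg (sgn p (D1 ξ)) else 1) *
            (if r.2.2.2 = true then sg (sgn p (D2 ξ)) else 1))) else 0 with hF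
    have h1 : ∀ i : I4 cls, (if fg (some i) = some (j, v) then G cls k c ξ p (some i) else 0) =
        F i.1 := by
      intro i
      refine if_congr ?_ rfl rfl
      simp only [fg, Option.map_some, Option.some.injEq, Prod.mk.injEq]
    refine (Finset.sum_congr rfl fun i _ => h1 i).trans ((sum_I4 cls F).trans ?_)
    rw [Fintype.sum_prod_type, Finset.sum_eq_single j]
    · rw [Fintype.sum_prod_type, Finset.sum_eq_single v]
      · show _ = 1 / ((p : ℝ) - c) * _
        rw [loc_id (cls j) (k j) (Pr_prime p) (hk j) v, Finset.mul_sum]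
        refine Finset.sum_congr rfl fun x _ => ?_
        simp only [hF, and_self, if_true, mul_ite, mul_zero]
      · intro v' _ hv'
        refine Finset.sum_eq_zero fun x _ => ?_
        simp [hF, hv']
      · intro h
        exact absurd (Finset.mem_univ _) h
    · intro j' _ hj'
      refine Finset.sum_eq_zero fun x _ => ?_
      simp [hF, hj']
    · intro h
      exact absurd (Finset.mem_univ _) h

lemma Al_orth : ∀ (c : Fin 4) (v x : Bool × Bool), Al c v x = true →
    xor (x.1 && v.1) (x.2 && v.2) = false := by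
  decide

lemma bits_eq (q p : Pr z y) (a b x y' : Bool)
    (h : q = p → xor (a && x) (b && y') = false) :
    (if xor (a && x) (b && y') = true then Jr (q : ℕ) p else 1) =
      (if a = true then (if q ≠ p ∧ x = true then Jr (q : ℕ) p else 1) else 1) *
      (if b = true then (if q ≠ p ∧ y' = true then Jr (q : ℕ) p else 1) else 1) := by
  by_cases hqp : q = p
  · rw [h hqp]
    simp [hqp]
  · have hJ : Jr (q : ℕ) p * Jr (q : ℕ) p = 1 := by
      have hnd : ¬ ((p : ℕ) : ℤ) ∣ ((q : ℕ) : ℤ) := by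
        rw [Int.natCast_dvd_natCast]
        intro hd
        exact hqp (Subtype.ext ((Nat.prime_dvd_prime_iff_eq (Pr_prime p) (Pr_prime q)).1 hd).symm)
      rw [← sg_sg0 (Pr_prime p) hnd]
      unfold sg
      split_ifs <;> norm_num
    cases a <;> cases b <;> cases x <;> cases y' <;> simp [hqp, hJ]

lemma rhs_term (cls : J → Fin 4) (k : J → Fin 3 → ℤ) (c : ℕ)
    (ξ : Pr z y → Option (J × (Bool × Bool))) (l : Pr z y → Option (I4 cls))
    (h : ∀ p, fg (l p) = ξ p) :
    (∏ i, gw (w4 cls i) c (Dl l i)) * Pool.Agent.W262.RK.Sym (L4 cls) (κ4 cls k) (Dl l) =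
      ∏ p, G cls k c ξ p (l p) := by
  rw [prod_gw, Sym_Dl, ← Finset.prod_mul_distrib, ← Finset.prod_mul_distrib]
  refine Finset.prod_congr rfl fun p _ => ?_
  cases hl : l p with
  | none =>
    have h0 : ∀ q, lk (L4 cls) (l q) none = false := by
      intro q
      cases l q <;> rfl
    simp [h0, G]
  | some i =>
    have hAl := Al_orth _ _ _ i.2
    have h1 : ∀ q, lk (L4 cls) (l q) (some i) =
        xor (i.1.2.2.1 && b1 (ξ q)) (i.1.2.2.2 && b2 (ξ q)) := by
      intro q
      rw [← h q]
      cases hq : l q with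
      | none => simp [lk, fg, b1, b2]
      | some i' => rfl
    have h2 : ∏ q : Pr z y, (if lk (L4 cls) (l q) (some i) = true then Jr (q : ℕ) p else 1) =
        ((if i.1.2.2.1 = true then sg (sgn p (D1 ξ)) else 1) *
      (if i.1.2.2.2 = true then sg (sgn p (D2 ξ)) else 1)) := by
      have h3 : ∀ a : Bool, ∀ b : Pr z y → Bool, (if a = true then sg (sgn p (nb b : ℤ)) else 1) =
          ∏ q : Pr z y, if a = true then (if q ≠ p ∧ b q = true then Jr (q : ℕ) p else 1)
            else 1 := by
        intro a b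
        cases a
        · simp
        · simp only [if_true]
          exact sgn_nb b p
      unfold D1 D2
      rw [h3, h3, ← Finset.prod_mul_distrib]
      refine Finset.prod_congr rfl fun q _ => ?_
      rw [h1]
      refine bits_eq q p _ _ _ _ fun hqp => ?_
      rw [hqp, ← h p, hl]
      exact hAl
    rw [h2]
    simp only [G, Option.elim]
    ring

end final

theorem exp4 : Pool.Agent.W262.RK.EXP4 := by
  intro J _ _ cls κ c z y hz hκ hκz
  classical
  rw [lhs_eq, sum_Tup, ← Finset.sum_fiberwise univ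
    (fun (l : Pr z y → Option (I4 cls)) => fun p => fg (l p))]
  refine Finset.sum_congr rfl fun ξ _ => ?_
  have h1 : (univ.filter fun l : Pr z y → Option (I4 cls) => (fun p => fg (l p)) = ξ) =
      Fintype.piFinset (fun p => univ.filter (fun x : Option (I4 cls) => fg x = ξ p)) := by
    ext l
    simp only [Finset.mem_filter, Finset.mem_univ, true_and, Fintype.mem_piFinset, funext_iff]
  have hk : ∀ p : Pr z y, ∀ j i, ¬ ((p : ℕ) : ℤ) ∣ κ j i := by
    intro p j i hd
    have hz : z < p := by
      have := p.2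
      unfold PS at this
      exact (Finset.mem_Ioc.1 (Finset.mem_filter.1 this).1).1
    have h3 := Nat.le_of_dvd (Int.natAbs_pos.mpr (hκ j i)) (Int.natCast_dvd.1 hd)
    have h4 := hκz j i
    omega
  rw [h1, Finset.prod_congr rfl fun p _ => (sum_G cls κ c ξ p (hk p)).symm, Finset.prod_univ_sum]
  refine Finset.sum_congr rfl fun l hl => ?_
  rw [Fintype.mem_piFinset] at hl
  exact (rhs_term cls κ c ξ l fun p => (Finset.mem_filter.1 (hl p)).2).symm

end Pool.Agent.W762.RK2
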