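import Pool.Agent.W262.RK.Stm2
import Pool.Agent.W108.RK.EXP

/-!
# Project RK, second edition: expansion into symbols with the signs averaged (`EXP4`)
-/

set_option autoImplicit false

namespace Pool.Agent.W762.RK2

open Finset Pool.Agent.W262.RK Pool.Agent.W108.RK

section numbers

variable {z y : ℕ}

/-- the primes of `(z, y]` -/
abbrev Pr (z y : ℕ) : Type := {p : ℕ // p ∈ PS z y}

lemma Pr_prime (p : Pr z y) : (p : ℕ).Prime := by
  have h := p.2
  unfold PS at h
  exact (Finset.mem_filter.1 h).2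

/-- the number with the given prime factors -/
def nb (b : Pr z y → Bool) : ℕ := ∏ p : Pr z y, if b p = true then (p : ℕ) else 1

/-- the set of the prime factors -/
def Ts (b : Pr z y → Bool) : Finset ℕ :=
  (univ.filter fun p : Pr z y => b p = true).map (Function.Embedding.subtype _)

lemma nb_eq_prod (b : Pr z y → Bool) : nb b = ∏ p ∈ Ts b, p := by
  unfold nb Ts
  rw [Finset.prod_map, Finset.prod_filter]
  rfl

lemma nb_pf (b : Pr z y → Bool) : (nb b).primeFactors = Ts b := by
  rw [nb_eq_prod]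
  refine Nat.primeFactors_prod fun p hp => ?_
  unfold Ts at hp
  rw [Finset.mem_map] at hp
  obtain ⟨q, _, hq⟩ := hp
  rw [← hq]
  exact Pr_prime q

lemma nb_ne_zero (b : Pr z y → Bool) : nb b ≠ 0 := by
  unfold nb
  refine Finset.prod_ne_zero_iff.2 fun p _ => ?_
  split_ifs
  · exact (Pr_prime p).ne_zero
  · exact one_ne_zero

lemma mem_Ts (b : Pr z y → Bool) (p : Pr z y) : (p : ℕ) ∈ Ts b ↔ b p = true := by
  unfold Ts
  rw [Finset.mem_map]
  constructor
  · rintro ⟨q, hq, hqp⟩
    have : q = p := Subtype.ext hqp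
    rw [← this]
    exact (Finset.mem_filter.1 hq).2
  · intro h
    exact ⟨p, Finset.mem_filter.2 ⟨Finset.mem_univ _, h⟩, rfl⟩

lemma dvd_nb (b : Pr z y → Bool) (p : Pr z y) : (p : ℕ) ∣ nb b ↔ b p = true := by
  rw [← mem_Ts, ← nb_pf, Nat.mem_primeFactors]
  constructor
  · intro h
    exact ⟨Pr_prime p, h, nb_ne_zero b⟩
  · intro h
    exact h.2.1

lemma nb_inj {b b' : Pr z y → Bool} (h : nb b = nb b') : b = b' := by
  funext p
  have h1 := dvd_nb b p
  have h2 := dvd_nb b' p
  rw [h] at h1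
  exact Bool.eq_iff_iff.2 (h1.symm.trans h2)

lemma nb_dvd {b b' : Pr z y → Bool} (h : ∀ p, b p = true → b' p = true) : nb b ∣ nb b' := by
  unfold nb
  refine Finset.prod_dvd_prod_of_dvd _ _ fun p _ => ?_
  by_cases hb : b p = true
  · rw [if_pos hb, if_pos (h p hb)]
  · rw [if_neg hb]
    exact one_dvd _

lemma nb_true : nb (fun _ : Pr z y => true) = PP z y := by
  unfold nb PP
  simp only [if_true]
  exact Finset.prod_coe_sort (PS z y) (fun p => p)

lemma nb_dvd_PP (b : Pr z y → Bool) : nb b ∣ PP z y := by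
  rw [← nb_true]
  exact nb_dvd fun _ _ => rfl

lemma nb_eq {n : ℕ} (h : n ∣ PP z y) : nb (fun p : Pr z y => decide ((p : ℕ) ∣ n)) = n := by
  have hsq : Squarefree n := Squarefree.squarefree_of_dvd h (PP_squarefree z y)
  rw [nb_eq_prod, ← Nat.prod_primeFactors_of_squarefree hsq]
  congr 1
  ext p
  constructor
  · intro hp
    unfold Ts at hp
    rw [Finset.mem_map] at hp
    obtain ⟨q, hq, hqp⟩ := hp
    rw [Finset.mem_filter] at hq
    rw [← hqp]
    have h1 := of_decide_eq_true hq.2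
    rw [Nat.prod_primeFactors_of_squarefree hsq] at h1
    exact Nat.mem_primeFactors.2 ⟨Pr_prime q, h1, hsq.ne_zero⟩
  · intro hp
    have hp1 := Nat.prime_of_mem_primeFactors hp
    have hp2 := Nat.dvd_of_mem_primeFactors hp
    have hp3 : p ∈ PS z y := by
      have h2 := hp2.trans h
      unfold PP at h2
      rw [Prime.dvd_finsetProd_iff hp1.prime] at h2
      obtain ⟨q, hq, hpq⟩ := h2
      have hq1 : q.Prime := by
        have hq' := hq
        unfold PS at hq'
        exact (Finset.mem_filter.1 hq').2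
      rwa [(Nat.prime_dvd_prime_iff_eq hp1 hq1).1 hpq]
    refine (mem_Ts _ ⟨p, hp3⟩).2 ?_
    rw [Nat.prod_primeFactors_of_squarefree hsq]
    exact decide_eq_true hp2

lemma prod_pf (b : Pr z y → Bool) (f : ℕ → ℝ) :
    ∏ p ∈ (nb b).primeFactors, f p = ∏ p : Pr z y, if b p = true then f p else 1 := by
  rw [nb_pf]
  unfold Ts
  rw [Finset.prod_map, Finset.prod_filter]
  rfl

lemma nb_coprime {b b' : Pr z y → Bool} (h : ∀ p, b p = true → b' p = true → False) :
    (nb b).Coprime (nb b') := by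
  refine Nat.coprime_of_dvd fun p hp h1 h2 => ?_
  have h3 : p ∈ Ts b := by
    rw [← nb_pf]
    exact Nat.mem_primeFactors.2 ⟨hp, h1, nb_ne_zero b⟩
  unfold Ts at h3
  rw [Finset.mem_map] at h3
  obtain ⟨q, hq, hqp⟩ := h3
  have hqp' : (q : ℕ) = p := hqp
  rw [← hqp', dvd_nb] at h1 h2
  exact h q h1 h2

/-- labellings and tuples -/
def Dl {ι : Type} [DecidableEq ι] (l : Pr z y → Option ι) (i : ι) : ℕ :=
  nb fun p => decide (l p = some i)

lemma Dl_mem {ι : Type} [Fintype ι] [DecidableEq ι] (l : Pr z y → Option ι) :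
    Dl l ∈ Tup ι z y := by
  refine mem_Tup.2 ⟨fun i => nb_dvd_PP _, fun i j hij => nb_coprime fun p h1 h2 => ?_⟩
  have h1' := of_decide_eq_true h1
  have h2' := of_decide_eq_true h2
  rw [h1'] at h2'
  exact hij (Option.some.inj h2')

/-- the label of a prime -/
noncomputable def lab {ι : Type} (d : ι → ℕ) (p : Pr z y) : Option ι :=
  open Classical in if h : ∃ i, (p : ℕ) ∣ d i then some h.choose else none

lemma lab_eq {ι : Type} [Fintype ι] [DecidableEq ι] {d : ι → ℕ} (hd : d ∈ Tup ι z y)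
    (p : Pr z y) (i : ι) : lab d p = some i ↔ (p : ℕ) ∣ d i := by
  obtain ⟨h1, h2⟩ := mem_Tup.1 hd
  unfold lab
  by_cases h : ∃ i, (p : ℕ) ∣ d i
  · rw [dif_pos h, Option.some.injEq]
    constructor
    · rintro rfl
      exact h.choose_spec
    · intro hi
      by_contra hne
      have h3 := Nat.dvd_gcd h.choose_spec hi
      rw [h2 _ _ hne] at h3
      exact (Pr_prime p).one_lt.ne' (Nat.dvd_one.1 h3)
  · rw [dif_neg h]
    constructor
    · intro h'
      exact absurd h' (by simp)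
    · intro hi
      exact absurd ⟨i, hi⟩ h

lemma Dl_lab {ι : Type} [Fintype ι] [DecidableEq ι] {d : ι → ℕ} (hd : d ∈ Tup ι z y) :
    Dl (lab (z := z) (y := y) d) = d := by
  funext i
  obtain ⟨h1, h2⟩ := mem_Tup.1 hd
  rw [← nb_eq (h1 i)]
  unfold Dl
  congr 1
  funext p
  exact decide_eq_decide.2 (lab_eq hd p i)

lemma sum_Tup {ι : Type} [Fintype ι] [DecidableEq ι] (F : (ι → ℕ) → ℝ) :
    ∑ d ∈ Tup ι z y, F d = ∑ l : Pr z y → Option ι, F (Dl l) := by
  symm
  refine Finset.sum_bij (fun l _ => Dl l) (fun l _ => Dl_mem l) ?_ ?_ (fun _ _ => rfl)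
  · intro l _ l' _ h
    funext p
    refine Option.ext fun i => ?_
    have h1 := congrFun (nb_inj (congrFun h i)) p
    exact decide_eq_decide.1 h1
  · intro d hd
    exact ⟨lab d, Finset.mem_univ _, Dl_lab hd⟩

lemma prod_Dl {ι : Type} [Fintype ι] [DecidableEq ι] (l : Pr z y → Option ι) :
    ∏ i, Dl l i = nb fun p => (l p).isSome := by
  unfold Dl nb
  rw [Finset.prod_comm]
  refine Finset.prod_congr rfl fun p _ => ?_
  cases h : l p with
  | none => simp [h]
  | some j => simp [h]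

lemma prod_gw {ι : Type} [Fintype ι] [DecidableEq ι] (w : ι → ℝ) (c : ℕ)
    (l : Pr z y → Option ι) :
    ∏ i, gw (w i) c (Dl l i) = ∏ p : Pr z y, (l p).elim 1 fun i => w i / ((p : ℝ) - c) := by
  have h1 : ∀ i, gw (w i) c (Dl l i) = ∏ p : Pr z y,
      if l p = some i then w i / ((p : ℝ) - c) else 1 := by
    intro i
    unfold gw Dl
    rw [prod_pf _ fun p : ℕ => w i / ((p : ℝ) - c)]
    simp only [decide_eq_true_eq]
  rw [Finset.prod_congr rfl fun i _ => h1 i, Finset.prod_comm]
  refine Finset.prod_congr rfl fun p _ => ?_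
  cases h : l p with
  | none => simp
  | some j => simp

lemma Jr_nb_right (a : ℤ) (b : Pr z y → Bool) :
    Jr a (nb b) = ∏ p : Pr z y, if b p = true then Jr a p else 1 := by
  rw [nb_eq_prod, Jr_prod_right]
  · rw [← prod_pf b fun p => Jr a p, nb_pf]
  · intro p hp
    rw [← nb_pf] at hp
    exact (Nat.prime_of_mem_primeFactors hp).ne_zero

lemma Jr_nb_left (b : Pr z y → Bool) (n : ℕ) :
    Jr (nb b : ℤ) n = ∏ p : Pr z y, if b p = true then Jr (p : ℕ) n else 1 := by
  unfold nb
  push_cast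
  rw [Jr_prod_left]
  refine Finset.prod_congr rfl fun p _ => ?_
  split_ifs
  · rfl
  · exact Jr_one_left n

/-- the sign -/
def sg (b : Bool) : ℝ := if b = true then -1 else 1

lemma sg_sg0 {p : ℕ} (hp : p.Prime) {k : ℤ} (hk : ¬ (p : ℤ) ∣ k) : sg (sg0 p k) = Jr k p := by
  have h1 : jacobiSym k p = 1 ∨ jacobiSym k p = -1 := by
    apply jacobiSym.eq_one_or_neg_one
    rw [Int.gcd_comm]
    have h3 : ¬ p ∣ k.natAbs := by
      rwa [← Int.natCast_dvd]
    have h4 := (hp.coprime_iff_not_dvd.mpr h3)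
    exact h4
  unfold sg sg0 Jr
  rcases h1 with h1 | h1
  · rw [h1]; norm_num
  · rw [h1]; norm_num

lemma sgn_nb (b : Pr z y → Bool) (p : Pr z y) :
    sg (sgn p (nb b : ℤ)) =
      ∏ q : Pr z y, if q ≠ p ∧ b q = true then Jr (q : ℕ) p else 1 := by
  have hp := Pr_prime p
  set b' : Pr z y → Bool := fun q => b q && decide (q ≠ p) with hb'
  have h1 : nb b = nb b' * (if b p = true then (p : ℕ) else 1) := by
    have h2 : (if b p = true then (p : ℕ) else 1) =
        ∏ q : Pr z y, if q = p then (if b q = true then (q : ℕ) else 1) else 1 := by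
      rw [Finset.prod_ite_eq' univ p]
      simp
    rw [h2]
    unfold nb
    rw [← Finset.prod_mul_distrib]
    refine Finset.prod_congr rfl fun q _ => ?_
    by_cases hq : q = p
    · simp [hb', hq]
    · simp [hb', hq]
  have hnd : ¬ (p : ℕ) ∣ nb b' := by
    rw [dvd_nb]
    simp [hb']
  have h3 : (nb b : ℤ) / (Int.gcd (nb b : ℤ) (p : ℕ) : ℤ) = (nb b' : ℤ) := by
    by_cases hbp : b p = true
    · rw [if_pos hbp] at h1
      have h4 : Int.gcd (nb b : ℤ) (p : ℕ) = p := by
        rw [Int.gcd_natCast_natCast, h1, Nat.gcd_mul_left_left]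
      rw [h4, h1]
      push_cast
      exact Int.mul_ediv_cancel _ (by exact_mod_cast hp.ne_zero)
    · rw [if_neg hbp, mul_one] at h1
      have h4 : Int.gcd (nb b : ℤ) (p : ℕ) = 1 := by
        rw [Int.gcd_natCast_natCast, h1]
        exact ((hp.coprime_iff_not_dvd).2 hnd).symm
      rw [h4, h1]
      simp
  unfold sgn
  rw [h3, sg_sg0 hp (by exact_mod_cast hnd), Jr_nb_left]
  refine Finset.prod_congr rfl fun q _ => ?_
  refine if_congr ?_ rfl rfl
  simp [hb', and_comm]

end numbers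

section local_identity

lemma Jr_dvd_ne {p : ℕ} (hp : p.Prime) {k : ℤ} (hk : ¬ (p : ℤ) ∣ k) : Jr k p = sg (sg0 p k) :=
  (sg_sg0 hp hk).symm

/-- the constant in a raw form -/
def kc (c : Fin 4) (k : Fin 3 → ℤ) (v x : Bool × Bool) : ℤ :=
  if v = (false, false) ∨ x = (false, false) then 1
  else if c = 3 then
    (if v = (true, false) then k 0 * k 2
      else if v = (false, true) then k 0 * k 1
      else -(k 1 * k 2))
  else k 0

/-- the weight in a raw form -/
noncomputable def wc (c : Fin 4) : ℝ := if c = 3 then 1 / 4 else 1 / 2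

open Classical in
/-- the indicator -/
noncomputable def ind (P : Prop) : ℝ := if P then 1 else 0

lemma loc_id (c : Fin 4) (k : Fin 3 → ℤ) {p : ℕ} (hp : p.Prime) (hk : ∀ i, ¬ (p : ℤ) ∣ k i)
    (v : Bool × Bool) (h g : Bool) :
    (ind (LL c k true p v.1 v.2 h g) + ind (LL c k false p v.1 v.2 h g)) / 2 =
      ∑ x : Bool × Bool, if Al c v x = true then
        wc c * Jr (kc c k v x) p * ((if x.1 = true then sg h else 1) *
          (if x.2 = true then sg g else 1)) else 0 := by
  have hmul : ∀ i j, ¬ (p : ℤ) ∣ k i * k j := by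
    intro i j hd
    rcases (Nat.prime_iff_prime_int.1 hp).dvd_or_dvd hd with h' | h'
    · exact hk i h'
    · exact hk j h'
  have hneg : ∀ i, ¬ (p : ℤ) ∣ -k i := fun i h' => hk i ((dvd_neg).1 h')
  have e1 : Jr (k 0 * k 2) p = sg (sg0 p (k 0 * k 2)) := Jr_dvd_ne hp (hmul 0 2)
  have e2 : Jr (k 0 * k 1) p = sg (sg0 p (k 0 * k 1)) := Jr_dvd_ne hp (hmul 0 1)
  have e3 : Jr (-(k 1 * k 2)) p = sg (sg0 p (k 1)) * sg (sg0 p (-k 2)) := by
    rw [← Jr_dvd_ne hp (hk 1), ← Jr_dvd_ne hp (hneg 2), ← Jr_mul_left]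
    congr 1
    ring
  have e4 : Jr (k 0) p = sg (sg0 p (k 0)) := Jr_dvd_ne hp (hk 0)
  have e5 : Jr 1 p = 1 := Jr_one_left p
  obtain ⟨v1, v2⟩ := v
  simp only [Fintype.sum_prod_type, Fintype.sum_bool]
  generalize ha : sg0 p (k 0) = a at *
  generalize hb : sg0 p (k 0 * k 1) = b at *
  generalize hcc : sg0 p (k 0 * k 2) = cc at *
  generalize hd : sg0 p (-k 0) = d at *
  generalize he : sg0 p (k 1) = e at *
  generalize hf : sg0 p (-k 2) = f at *
  fin_cases c <;> cases v1 <;> cases v2 <;>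
    simp [kc, wc, Al, ec, LL, ind, e1, e2, e3, e4, e5, ha, hb, hcc, hd, he, hf] <;>
    cases h <;> cases g <;> cases a <;> cases b <;> cases cc <;> cases d <;> cases e <;>
      cases f <;> simp [sg] <;> norm_num

end local_identity

end Pool.Agent.W762.RK2
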